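import Pool.Agent.TH143.TW.Desc
import Pool.Agent.TH143.HE.Proj

/-!
Towers of fields of coefficients.
-/

set_option autoImplicit false

namespace Pool.Agent.TH143.TW

open MvPolynomial Filter Pool.Agent.TH143.DE Pool.Agent.TH143.HE

/-! ### the eventually constant sequences -/

/-- the eventually constant sequences -/
def EC : Subalgebra ℂ (ℕ → ℂ) where
  carrier := {f | ∃ c : ℂ, ∀ᶠ m in atTop, f m = c}
  mul_mem' := by
    rintro f g ⟨a, ha⟩ ⟨b, hb⟩
    refine ⟨a * b, ?_⟩
    filter_upwards [ha, hb] with m h1 h2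
    rw [Pi.mul_apply, h1, h2]
  add_mem' := by
    rintro f g ⟨a, ha⟩ ⟨b, hb⟩
    refine ⟨a + b, ?_⟩
    filter_upwards [ha, hb] with m h1 h2
    rw [Pi.add_apply, h1, h2]
  algebraMap_mem' := fun c => ⟨c, Eventually.of_forall fun _ => rfl⟩

theorem EC_field : CoefField EC := by
  refine ⟨⟨?_, ?_⟩, ?_⟩
  · rintro f ⟨c, hc⟩
    exact ⟨c, eventually_shift hc 1⟩
  · rintro f ⟨c, hc⟩
    by_cases h0 : c = 0
    · left
      filter_upwards [hc] with m hm
      rw [hm, h0]
    · right
      filter_upwards [hc] with m hm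
      rwa [hm]
  · rintro f ⟨c, hc⟩
    refine ⟨c⁻¹, ?_⟩
    filter_upwards [hc] with m hm
    rw [hm]

variable {N : ℕ} {B B' : Subalgebra ℂ (ℕ → ℂ)}

/-- The points with the homogeneous coordinates `x m` form an eventually periodic sequence. -/
def Per (x : ℕ → Fin (N + 1) → ℂ) : Prop :=
  ∃ k m0 : ℕ, 0 < k ∧ ∀ m, m0 ≤ m → ∀ i j, x (m + k) i * x m j = x (m + k) j * x m i

theorem Per.shift {x : ℕ → Fin (N + 1) → ℂ} {t : ℕ} (h : Per fun m => x (m + t)) : Per x := by
  obtain ⟨k, m0, hk, h⟩ := h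
  refine ⟨k, m0 + t, hk, fun m hm i j => ?_⟩
  have h1 := h (m - t) (by omega) i j
  have h2 : m - t + k + t = m + k := by omega
  have h3 : m - t + t = m := by omega
  simp only [h2, h3] at h1
  exact h1

theorem Per.scale {x : ℕ → Fin (N + 1) → ℂ} {b : ℕ → ℂ} (hb : ∀ᶠ m in atTop, b m ≠ 0)
    (h : Per fun m j => b m * x m j) : Per x := by
  obtain ⟨k, m0, hk, h⟩ := h
  obtain ⟨m1, hm1⟩ := eventually_atTop.1 hb
  refine ⟨k, m0 + m1, hk, fun m hm i j => ?_⟩
  have h1 := h m (by omega) i j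
  have h2 := hm1 m (by omega)
  have h3 := hm1 (m + k) (by omega)
  have h4 : (b (m + k) * b m) * (x (m + k) i * x m j - x (m + k) j * x m i) = 0 := by
    linear_combination h1
  rcases mul_eq_zero.1 h4 with h5 | h5
  · exact absurd h5 (mul_ne_zero h3 h2)
  · exact sub_eq_zero.1 h5

variable {R : Type} [CommRing R]

/-- All sequences of points of the variety of `I`, outside of the variety of `I'`, with homogeneous
coordinates satisfying linear recurrences over `B`, are eventually periodic. -/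
def Good (φ : R →+* ℂ) (I I' : Ideal (MvPolynomial (Fin (N + 1)) R))
    (B : Subalgebra ℂ (ℕ → ℂ)) : Prop :=
  ∀ x : ℕ → Fin (N + 1) → ℂ, (∀ᶠ m in atTop, x m ≠ 0) → (∀ j, LinRec B fun m => x m j) →
    (∀ᶠ m in atTop, IsPtP φ I (x m)) → (∀ᶠ m in atTop, ¬ IsPtP φ I' (x m)) → Per x

theorem LinRec.ec {f : ℕ → ℂ} (h : LinRec EC f) :
    ∃ (r : ℕ) (c : ℕ → ℂ), (∃ k ≤ r, c k ≠ 0) ∧
      ∀ᶠ m in atTop, ∑ k ∈ Finset.range (r + 1), c k * f (m + k) = 0 := by
  obtain ⟨r, a, ha, ⟨k, hk, hk0⟩, h⟩ := h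
  choose c hc using ha
  refine ⟨r, c, ⟨k, hk, fun h0 => hk0 ?_⟩, ?_⟩
  · filter_upwards [hc k] with m hm
    rw [hm, h0]
  · have h1 : ∀ᶠ m in atTop, ∀ k ∈ Finset.range (r + 1), a k m = c k := by
      rw [Finset.eventually_all]
      intro k _
      exact hc k
    filter_upwards [h, h1] with m h2 h3
    rw [← h2]
    exact Finset.sum_congr rfl fun k hk => by rw [h3 k hk]

/-- **The base.** -/
theorem good_base {φ : R →+* ℂ} {I I' : Ideal (MvPolynomial (Fin (N + 1)) R)}
    (h : RatCurvesIn φ I I') : Good φ I I' EC := by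
  intro x hne hx hX hZ
  choose r c hc hrec using fun j => LinRec.ec (hx j)
  obtain ⟨t, ht⟩ := eventually_atTop.1 ((hne.and hX).and (hZ.and (eventually_all.2 hrec)))
  refine Per.shift (t := t) ?_
  have hP : ∀ j, PRec fun m => x (m + t) j := by
    intro j
    refine ⟨r j, fun k => Polynomial.C (c j k), ?_, fun m => ?_⟩
    · obtain ⟨k, hk, hk0⟩ := hc j
      exact ⟨k, hk, by rwa [Ne, Polynomial.C_eq_zero]⟩
    · have h2 := (ht (m + t) (by omega)).2.2 j
      rw [← h2]
      refine Finset.sum_congr rfl fun k _ => ?_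
      rw [Polynomial.eval_C]
      have h3 : m + k + t = m + t + k := by ring
      simp only [h3]
  exact proj_periodic h (x := fun m => x (m + t)) (fun m => (ht (m + t) (by omega)).1.1) hP
    (fun m => (ht (m + t) (by omega)).1.2) (fun m => (ht (m + t) (by omega)).2.1)

theorem unit_ne {Q : ℕ → ℂ} (h : IsUnit (gg Q)) : ∀ᶠ m in atTop, Q m ≠ 0 := by
  obtain ⟨v, hv⟩ := h.exists_right_inv
  obtain ⟨V, rfl⟩ := gg_surj v
  rw [← map_mul, ← map_one gg, gg_eq] at hv
  filter_upwards [hv] with m hm h0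
  rw [Pi.mul_apply, h0, zero_mul, Pi.one_apply] at hm
  exact zero_ne_one hm

theorem ne_unit {Q : ℕ → ℂ} (h : ∀ᶠ m in atTop, Q m ≠ 0) : IsUnit (gg Q) := by
  refine IsUnit.of_mul_eq_one (gg fun m => (Q m)⁻¹) ?_
  rw [← map_mul, ← map_one gg, gg_eq]
  filter_upwards [h] with m hm
  rw [Pi.mul_apply, Pi.one_apply, mul_inv_cancel₀ hm]

/-- **The step.** -/
theorem good_step {φ : R →+* ℂ} {I I' : Ideal (MvPolynomial (Fin (N + 1)) R)}
    (h : RatCurvesIn φ I I') (hB : CoefField B) (hB' : CoefField B') (hst : Step B B')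
    (hG : Good φ I I' B) : Good φ I I' B' := by
  classical
  intro x hne hx hX hZ
  -- a linear form
  obtain ⟨c, hc⟩ := exists_linear (fun m => if x m = 0 then fun _ => 1 else x m) (by
    intro m
    by_cases h0 : x m = 0
    · simp only [if_pos h0]
      intro h1
      exact one_ne_zero (congrFun h1 0)
    · simp only [if_neg h0]
      exact h0)
  let ℓ : MvPolynomial (Fin (N + 1)) ℂ := ∑ j : Fin (N + 1), C (c ^ (j : ℕ)) * X j
  have hℓ : ℓ.IsHomogeneous 1 := by
    refine IsHomogeneous.sum _ _ _ fun j _ => ?_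
    have h2 := (isHomogeneous_C (Fin (N + 1)) (c ^ (j : ℕ))).mul (isHomogeneous_X ℂ j)
    rwa [zero_add] at h2
  have hℓe : ∀ v : Fin (N + 1) → ℂ, eval v ℓ = ∑ j : Fin (N + 1), c ^ (j : ℕ) * v j := by
    intro v
    simp only [ℓ, map_sum, map_mul, eval_C, eval_X]
  have hℓx : ∀ᶠ m in atTop, eval (x m) ℓ ≠ 0 := by
    filter_upwards [hne] with m hm
    have h1 := hc m
    simp only [if_neg hm] at h1
    rw [hℓe]
    exact h1
  let s : Set (MvPolynomial (Fin (N + 1)) ℂ) :=
    {G | ∃ G0 ∈ I, (∃ d, G0.IsHomogeneous d) ∧ G = MvPolynomial.map φ G0}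
  obtain ⟨t, ht⟩ := exists_rc hB' hx hℓ hℓx (s := s)
    (by
      rintro _ ⟨G0, _, ⟨d, hd⟩, rfl⟩
      exact ⟨d, hd.map φ⟩)
    (by
      rintro _ ⟨G0, hG0, hd, rfl⟩
      filter_upwards [hX] with m hm
      rw [eval_map]
      exact hm G0 hG0 hd)
  let y : Fin (N + 1) → ℕ → ℂ := fun j m => x (m + t) j / eval (x (m + t)) ℓ
  have hℓt := eventually_shift hℓx t
  have hint : ∀ j, IsIntegral (KB B' hB') (gg (y j)) := by
    intro j
    refine int_of_cf hB' fun J hJ hJp => ?_
    have hdom : IsDomain ((ℕ → ℂ) ⧸ J) := Ideal.Quotient.isDomain J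
    apply rel_of_cf hB' hJ hJp (FractionRing ((ℕ → ℂ) ⧸ J))
    by_contra hcon
    obtain ⟨m, ⟨p, h1, h2, h3⟩, h6⟩ :=
      ((ht J hJ hJp (FractionRing ((ℕ → ℂ) ⧸ J)) j hcon).and_eventually
        (eventually_shift hZ t)).exists
    apply h6
    rw [← h2]
    refine h p (fun u G hG hGf => ?_) h3 1
    have h4 := h1 _ ⟨G, hG, hGf, rfl⟩
    have h5 := congrArg (Polynomial.eval u) h4
    rw [Polynomial.eval_zero, eval_aeval, eval_map] at h5
    exact h5
  have hf : ∀ j, LF (KB B' hB') (gg fun m => x (m + t) j) := fun j =>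
    LF_of_linRec hB' (LinRec.shift hB' (hx j) t)
  have hg : LF (KB B' hB') (gg fun m => eval (x (m + t)) ℓ) := by
    have h1 : gg (fun m => eval (x (m + t)) ℓ) = ∑ j : Fin (N + 1),
        algebraMap (KB B' hB') GG (cK hB' ⟨_, B'.algebraMap_mem (c ^ (j : ℕ))⟩) *
          gg fun m => x (m + t) j := by
      simp only [alg_cK, ← map_mul]
      rw [← map_sum]
      congr 1
      funext m
      rw [hℓe, Finset.sum_apply]
      rfl
    rw [h1]
    exact LF.sum (shK hB') (shG_alg hB') _ fun j _ =>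
      (LF.alg (shK hB') (shG_alg hB') _).mul (hf j)
  obtain ⟨q, hqu, hq, hqr⟩ := descend hB hB' hst (f := fun j => gg fun m => x (m + t) j)
    (r := fun j => gg (y j)) (g := gg fun m => eval (x (m + t)) ℓ) hf hg (ne_unit hℓt)
    (fun j => by
      rw [← map_mul, gg_eq]
      filter_upwards [hℓt] with m hm
      rw [Pi.mul_apply]
      exact mul_div_cancel₀ _ hm) hint
  obtain ⟨Q, rfl⟩ := gg_surj q
  have hQ := unit_ne hqu
  have hb : ∀ᶠ m in atTop, Q m / eval (x (m + t)) ℓ ≠ 0 := by
    filter_upwards [hQ, hℓt] with m h1 h2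
    exact div_ne_zero h1 h2
  refine Per.shift (t := t) (Per.scale (b := fun m => Q m / eval (x (m + t)) ℓ) hb
    (hG _ ?_ ?_ ?_ ?_))
  · filter_upwards [hb, eventually_shift hne t] with m h1 h2 h3
    apply h2
    funext j
    have h4 := congrFun h3 j
    exact (mul_eq_zero.1 h4).resolve_left h1
  · intro j
    apply linRec_of_LF hB
    have h1 : gg (fun m => Q m / eval (x (m + t)) ℓ * x (m + t) j) = gg Q * gg (y j) := by
      rw [← map_mul]
      congr 1
      funext m
      change _ = Q m * (x (m + t) j / eval (x (m + t)) ℓ)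
      ring
    rw [h1]
    exact hqr j
  · filter_upwards [eventually_shift hX t] with m h1
    rintro G hG ⟨d, hd⟩
    rw [eval₂_smul_homog φ _ (x (m + t)) hd, h1 G hG ⟨d, hd⟩, mul_zero]
  · filter_upwards [hb, eventually_shift hZ t] with m h1 h2 h3
    apply h2
    rintro G hG ⟨d, hd⟩
    have h4 := h3 G hG ⟨d, hd⟩
    rw [eval₂_smul_homog φ _ (x (m + t)) hd] at h4
    exact (mul_eq_zero.1 h4).resolve_left (pow_ne_zero _ h1)

/-- The towers: one starts with the eventually constant sequences; in each step one goes to a field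
of coefficients which is generated by finitely many sequences satisfying linear recurrences over
the previous field. -/
inductive Tow : Subalgebra ℂ (ℕ → ℂ) → Prop
  | base : Tow EC
  | step {B B' : Subalgebra ℂ (ℕ → ℂ)} : Tow B → CoefField B' → Step B B' → Tow B'

theorem Tow.field (h : Tow B) : CoefField B := by
  cases h with
  | base => exact EC_field
  | step _ h2 _ => exact h2

/-- **The theorem for towers.** -/
theorem tow_good {φ : R →+* ℂ} {I I' : Ideal (MvPolynomial (Fin (N + 1)) R)}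
    (h : RatCurvesIn φ I I') (hB : Tow B) : Good φ I I' B := by
  induction hB with
  | base => exact good_base h
  | step h1 h2 h3 ih => exact good_step h h1.field h2 h3 ih

/-! ### examples -/

theorem aeval_seq (t : ℕ → ℂ) (p : Polynomial ℂ) (m : ℕ) :
    (Polynomial.aeval t p : ℕ → ℂ) m = p.eval (t m) := by
  have := Polynomial.aeval_algHom_apply (Pi.evalAlgHom ℂ (fun _ : ℕ => ℂ) m) t p
  change Polynomial.aeval (t m) p = _ at this
  rw [Polynomial.coe_aeval_eq_eval] at this
  exact this.symm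

theorem tow_rat {t : ℕ → ℂ} (ht : Function.Injective t) (ρ : Polynomial ℂ)
    (hρ : ∀ m, t (m + 1) = ρ.eval (t m)) (hrec : LinRec EC t) : Tow (ratB t ht) := by
  refine Tow.step Tow.base (ratB_field ht ρ hρ) ⟨?_, {t}, Set.finite_singleton t, ?_, ?_, ?_⟩
  · rintro f ⟨c, hc⟩
    refine ⟨Polynomial.C c, 1, one_ne_zero, ?_⟩
    filter_upwards [hc] with m hm
    rw [hm, Polynomial.eval_C, Polynomial.eval_one, div_one]
  · intro u hu
    rw [Set.mem_singleton_iff.1 hu]
    exact hrec
  · rw [Set.singleton_subset_iff]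
    exact ⟨Polynomial.X, 1, one_ne_zero, Eventually.of_forall fun m => by
      rw [Polynomial.eval_X, Polynomial.eval_one, div_one]⟩
  · rintro b ⟨P, Q, hQ, hb⟩
    have hmem : ∀ p : Polynomial ℂ, (Polynomial.aeval t p : ℕ → ℂ) ∈
        Algebra.adjoin ℂ (((EC : Subalgebra ℂ (ℕ → ℂ)) : Set (ℕ → ℂ)) ∪ {t}) := by
      intro p
      have h1 : (Polynomial.aeval t p : ℕ → ℂ) ∈ Algebra.adjoin ℂ ({t} : Set (ℕ → ℂ)) :=
        Polynomial.aeval_mem_adjoin_singleton _ _
      exact Algebra.adjoin_mono Set.subset_union_right h1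
    refine ⟨_, hmem P, _, hmem Q, ?_, ?_⟩
    · filter_upwards [ev_ne ht hQ] with m hm
      rw [aeval_seq]
      exact hm
    · filter_upwards [hb, ev_ne ht hQ] with m h1 h2
      rw [aeval_seq, aeval_seq, h1, div_mul_cancel₀ _ h2]

/-- the rational functions of the index -/
theorem tow_RB : Tow RB := by
  refine tow_rat Nat.cast_injective (Polynomial.X + 1) (fun m => ?_) ?_
  · rw [Polynomial.eval_add, Polynomial.eval_X, Polynomial.eval_one]
    push_cast
    rfl
  · refine ⟨2, fun k _ => if k = 0 then 1 else if k = 1 then -2 else 1, fun k => ?_,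
      ⟨0, by omega, ?_⟩, ?_⟩
    · by_cases h0 : k = 0
      · simp only [if_pos h0]
        exact ⟨1, Eventually.of_forall fun _ => rfl⟩
      · by_cases h1 : k = 1
        · simp only [if_neg h0, if_pos h1]
          exact ⟨-2, Eventually.of_forall fun _ => rfl⟩
        · simp only [if_neg h0, if_neg h1]
          exact ⟨1, Eventually.of_forall fun _ => rfl⟩
    · intro h
      obtain ⟨m, hm⟩ := h.exists
      simp at hm
    · refine Eventually.of_forall fun m => ?_
      simp only [Finset.sum_range_succ, Finset.sum_range_zero]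
      push_cast
      simp
      ring

/-- the rational functions of `c ^ m` -/
theorem tow_q {c : ℂ} (hc : Function.Injective fun m : ℕ => c ^ m) :
    Tow (ratB (fun m : ℕ => c ^ m) hc) := by
  refine tow_rat hc (Polynomial.C c * Polynomial.X) (fun m => ?_) ?_
  · rw [Polynomial.eval_mul, Polynomial.eval_C, Polynomial.eval_X, pow_succ']
  · refine ⟨1, fun k _ => if k = 0 then -c else 1, fun k => ?_, ⟨1, le_rfl, ?_⟩, ?_⟩
    · by_cases h0 : k = 0
      · simp only [if_pos h0]
        exact ⟨-c, Eventually.of_forall fun _ => rfl⟩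
      · simp only [if_neg h0]
        exact ⟨1, Eventually.of_forall fun _ => rfl⟩
    · intro h
      obtain ⟨m, hm⟩ := h.exists
      simp at hm
    · refine Eventually.of_forall fun m => ?_
      simp only [Finset.sum_range_succ, Finset.sum_range_zero]
      simp
      ring

end Pool.Agent.TH143.TW
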