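import Pool.Agent.TH143.TW.Fin

/-!
The fields of coefficients, and the descent from a field to a smaller one.
-/

set_option autoImplicit false

namespace Pool.Agent.TH143.TW

open Filter Pool.Agent.TH143.DE Pool.Agent.TH143.HE

variable {B : Subalgebra ℂ (ℕ → ℂ)}

/-- the field of the germs of the coefficients -/
def KB (B : Subalgebra ℂ (ℕ → ℂ)) (_ : CoefField B) : Type := B ⧸ ez B

noncomputable instance instKB (hB : CoefField B) : Field (KB B hB) :=
  haveI := ez_maximal hB
  Ideal.Quotient.field (ez B)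

/-- the class of a coefficient -/
noncomputable def cK (hB : CoefField B) : B →+* KB B hB := Ideal.Quotient.mk (ez B)

theorem cK_surj (hB : CoefField B) : Function.Surjective (cK hB) := Ideal.Quotient.mk_surjective

theorem cK_zero (hB : CoefField B) {b : B} :
    cK hB b = 0 ↔ ∀ᶠ m in atTop, (b : ℕ → ℂ) m = 0 :=
  (Ideal.Quotient.eq_zero_iff_mem (I := ez B)).trans mem_ez

/-- the germ of a coefficient -/
noncomputable def toG (hB : CoefField B) : KB B hB →+* GG :=
  Ideal.quotientMap EZ (B.val : B →+* (ℕ → ℂ)) le_rfl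

noncomputable instance instKBA (hB : CoefField B) : Algebra (KB B hB) GG := (toG hB).toAlgebra

theorem alg_cK (hB : CoefField B) (b : B) :
    algebraMap (KB B hB) GG (cK hB b) = gg (b : ℕ → ℂ) := rfl

/-- the shift of the coefficients -/
noncomputable def shK (hB : CoefField B) : KB B hB →+* KB B hB :=
  Ideal.quotientMap (ez B) (sB hB.shift) fun b hb => by
    rw [Ideal.mem_comap, mem_ez]
    exact eventually_shift (mem_ez.1 hb) 1

theorem shG_alg (hB : CoefField B) (c : KB B hB) :
    shG (algebraMap (KB B hB) GG c) = algebraMap (KB B hB) GG (shK hB c) := by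
  obtain ⟨b, rfl⟩ := cK_surj hB c
  rfl

instance instCZ (hB : CoefField B) : CharZero (KB B hB) := by
  refine charZero_of_injective_ringHom (f := (cK hB).comp (algebraMap ℂ B)) ?_
  exact RingHom.injective _

/-- linear recurrences and stable spaces -/
theorem LF_of_linRec (hB : CoefField B) {f : ℕ → ℂ} (hf : LinRec B f) :
    LF (KB B hB) (gg f) := by
  classical
  obtain ⟨r, a, ha, ⟨k0, hk0, hn⟩, h⟩ := hf
  let c : ℕ → KB B hB := fun k => cK hB ⟨a k, ha k⟩
  have hrel : ∑ k ∈ Finset.range (r + 1), c k • (shG ^ k) (gg f) = 0 := by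
    have h1 : ∀ k, c k • (shG ^ k) (gg f) = gg (fun m => a k m * f (m + k)) := by
      intro k
      rw [Algebra.smul_def, alg_cK, shG_pow, ← map_mul]
      rfl
    rw [Finset.sum_congr rfl fun k _ => h1 k, ← map_sum, ← map_zero gg, gg_eq]
    filter_upwards [h] with m hm
    rw [Finset.sum_apply]
    exact hm
  have hck0 : c k0 ≠ 0 := by
    intro h0
    exact hn ((cK_zero hB).1 h0)
  let T := (Finset.range (r + 1)).filter fun k => c k ≠ 0
  have hT : T.Nonempty := ⟨k0, Finset.mem_filter.2 ⟨Finset.mem_range.2 (by omega), hck0⟩⟩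
  set t := T.max' hT with ht
  have htT := Finset.mem_filter.1 (T.max'_mem hT)
  have hout : ∀ k ∈ Finset.range (r + 1), t < k → c k = 0 := by
    intro k hk hkt
    by_contra hne
    exact absurd (T.le_max' k (Finset.mem_filter.2 ⟨hk, hne⟩)) (not_le.2 hkt)
  have hct : c t ≠ 0 := htT.2
  let s : Set GG := (fun i => (shG ^ i) (gg f)) '' (Set.Iic t)
  have hgen : ∀ i ≤ t, (shG ^ i) (gg f) ∈ Submodule.span (KB B hB) s := fun i hi =>
    Submodule.subset_span ⟨i, hi, rfl⟩
  let s' : Set GG := (fun i => (shG ^ i) (gg f)) '' (Set.Iio t)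
  have hgen' : ∀ i < t, (shG ^ i) (gg f) ∈ Submodule.span (KB B hB) s' := fun i hi =>
    Submodule.subset_span ⟨i, hi, rfl⟩
  have htop : (shG ^ t) (gg f) ∈ Submodule.span (KB B hB) s' := by
    have h1 : ∑ k ∈ Finset.range (t + 1), c k • (shG ^ k) (gg f) = 0 := by
      rw [← hrel]
      apply Finset.sum_subset
      · intro k hk
        have h2 := Finset.mem_range.1 htT.1
        have h3 := Finset.mem_range.1 hk
        exact Finset.mem_range.2 (by omega)
      · intro k hk hk'
        rw [hout k hk (by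
          by_contra h4
          exact hk' (Finset.mem_range.2 (by omega)))]
        exact zero_smul (KB B hB) ((shG ^ k) (gg f))
    rw [Finset.sum_range_succ] at h1
    have h2 : (shG ^ t) (gg f) = (c t)⁻¹ • (-∑ k ∈ Finset.range t, c k • (shG ^ k) (gg f)) := by
      rw [← eq_neg_of_add_eq_zero_right h1, smul_smul, inv_mul_cancel₀ hct, one_smul]
    rw [h2]
    refine Submodule.smul_mem _ _ (Submodule.neg_mem _ (Submodule.sum_mem _ fun k hk => ?_))
    exact Submodule.smul_mem _ _ (hgen' k (Finset.mem_range.1 hk))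
  refine ⟨Submodule.span (KB B hB) s', Submodule.fg_span ((Set.finite_Iio t).image _), ?_,
    span_stable (shK hB) (shG_alg hB) ?_⟩
  · rcases Nat.eq_zero_or_pos t with h0 | h0
    · have h1 : (shG ^ t) (gg f) = gg f := by
        rw [h0]
        rfl
      rwa [h1] at htop
    · exact hgen' 0 h0
  · rintro _ ⟨i, hi, rfl⟩
    have hi' : i < t := hi
    change shG ((shG ^ i) (gg f)) ∈ _
    rw [shG_pow_succ]
    rcases Nat.lt_or_ge (i + 1) t with h2 | h2
    · exact hgen' _ h2
    · have h3 : i + 1 = t := by omega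
      rw [h3]
      exact htop

theorem linRec_of_LF (hB : CoefField B) {f : ℕ → ℂ} (h : LF (KB B hB) (gg f)) :
    LinRec B f := by
  classical
  obtain ⟨V, hV, hf, hst⟩ := h
  have hfin : Module.Finite (KB B hB) V := Module.Finite.iff_fg.2 hV
  have hmem : ∀ i : ℕ, (shG ^ i) (gg f) ∈ V := by
    intro i
    induction i with
    | zero => exact hf
    | succ i ih =>
      rw [← shG_pow_succ]
      exact hst _ ih
  set n := Module.finrank (KB B hB) V with hn
  have hdep : ¬ LinearIndependent (KB B hB) (fun i : Fin (n + 1) => (⟨_, hmem i⟩ : V)) := by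
    intro hli
    have h1 := hli.fintype_card_le_finrank
    rw [Fintype.card_fin, ← hn] at h1
    omega
  obtain ⟨g, hg, i0, hi0⟩ := Fintype.not_linearIndependent_iff.1 hdep
  choose b hb using fun i => cK_surj hB (g i)
  refine ⟨n, fun k => if h : k < n + 1 then (b ⟨k, h⟩ : ℕ → ℂ) else 0, fun k => ?_,
    ⟨i0, by omega, ?_⟩, ?_⟩
  · by_cases h : k < n + 1
    · simp only [dif_pos h]
      exact (b ⟨k, h⟩).2
    · simp only [dif_neg h]
      exact B.zero_mem
  · simp only [dif_pos i0.2]
    intro h0
    apply hi0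
    rw [← hb]
    exact (cK_zero hB).2 h0
  · have h1 := congrArg Subtype.val hg
    have h2 : ∑ i : Fin (n + 1), g i • (shG ^ (i : ℕ)) (gg f) = 0 := by
      have h4 : ((∑ i : Fin (n + 1), g i • (⟨_, hmem i⟩ : V) : V) : GG) =
          ∑ i : Fin (n + 1), g i • (shG ^ (i : ℕ)) (gg f) := by
        rw [AddSubmonoidClass.coe_finsetSum]
        rfl
      rw [← h4]
      exact h1
    have h3 : ∀ i : Fin (n + 1), g i • (shG ^ (i : ℕ)) (gg f) =
        gg (fun m => (b i : ℕ → ℂ) m * f (m + i)) := by
      intro i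
      rw [← hb, Algebra.smul_def, alg_cK, shG_pow, ← map_mul]
      rfl
    rw [Finset.sum_congr rfl fun k _ => h3 k, ← map_sum, ← map_zero gg, gg_eq] at h2
    filter_upwards [h2] with m hm
    rw [Finset.sum_apply, Pi.zero_apply] at hm
    rw [← hm, Finset.sum_range]
    refine Finset.sum_congr rfl fun i _ => ?_
    simp only [dif_pos i.2]

end Pool.Agent.TH143.TW
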