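import Pool.Agent.TH143.TW.Coef

/-!
Descent along an extension of the field of coefficients.
-/

set_option autoImplicit false

namespace Pool.Agent.TH143.TW

open Filter Pool.Agent.TH143.DE Pool.Agent.TH143.HE

variable {B B' : Subalgebra ℂ (ℕ → ℂ)}

instance instNT : Nontrivial GG := ⟨gg 0, gg 1, fun h => by
  obtain ⟨m, hm⟩ := (gg_eq.1 h).exists
  exact zero_ne_one hm⟩

/-- algebraic modulo all prime ideals of the ring of sequences -/
theorem int_of_cf (hB : CoefField B) {y : ℕ → ℂ}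
    (h : ∀ (I : Ideal (ℕ → ℂ)) (_ : EZ ≤ I) (_ : I.IsPrime),
      ∃ (p : Polynomial B), (∃ i, ¬ ∀ᶠ m in atTop, (p.coeff i : ℕ → ℂ) m = 0) ∧
        Polynomial.eval₂ (B.val : B →+* (ℕ → ℂ)) y p ∈ I) :
    IsIntegral (KB B hB) (gg y) := by
  refine int_of_primes fun P hP => ?_
  have hI : EZ ≤ P.comap (gg : (ℕ → ℂ) →+* GG) := by
    intro f hf
    rw [Ideal.mem_comap]
    have h1 : gg f = 0 := by
      rw [← map_zero gg, gg_eq]
      exact hf
    change gg f ∈ P
    rw [h1]
    exact P.zero_mem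
  obtain ⟨p, ⟨i, hi⟩, hp⟩ := h _ hI (hP.comap _)
  refine ⟨p.map (cK hB), ?_, ?_⟩
  · intro h0
    apply hi
    have h1 := congrArg (fun q => q.coeff i) h0
    simp only [Polynomial.coeff_map, Polynomial.coeff_zero] at h1
    exact (cK_zero hB).1 h1
  · rw [Polynomial.aeval_def, Polynomial.eval₂_map]
    have h1 : (algebraMap (KB B hB) GG).comp (cK hB) =
        (gg : (ℕ → ℂ) →+* GG).comp (B.val : B →+* (ℕ → ℂ)) := RingHom.ext fun b => alg_cK hB b
    rw [h1]
    have h2 := Polynomial.hom_eval₂ p (B.val : B →+* (ℕ → ℂ)) (gg : (ℕ → ℂ) →+* GG) y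
    change Polynomial.eval₂ _ ((gg : (ℕ → ℂ) →+* GG) y) p ∈ P
    rw [← h2]
    exact hp

/-- from algebraicity over the field of coefficients to a polynomial relation -/
theorem rel_of_cf (hB : CoefField B) {I : Ideal (ℕ → ℂ)} (hI : EZ ≤ I) (hIp : I.IsPrime)
    (K : Type) [Field K]
    [Algebra ((ℕ → ℂ) ⧸ I) K] [IsFractionRing ((ℕ → ℂ) ⧸ I) K] [Algebra ℂ K]
    [IsScalarTower ℂ ((ℕ → ℂ) ⧸ I) K] {y : ℕ → ℂ}
    (h : IsAlgebraic (cf hB hI K) (algebraMap ((ℕ → ℂ) ⧸ I) K (mk' I y))) :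
    ∃ (p : Polynomial B), (∃ i, ¬ ∀ᶠ m in atTop, (p.coeff i : ℕ → ℂ) m = 0) ∧
        Polynomial.eval₂ (B.val : B →+* (ℕ → ℂ)) y p ∈ I := by
  classical
  have hdom : IsDomain ((ℕ → ℂ) ⧸ I) := Ideal.Quotient.isDomain I
  set a := algebraMap ((ℕ → ℂ) ⧸ I) K with ha
  have hinj : Function.Injective a := IsFractionRing.injective _ K
  obtain ⟨P, hP0, hP⟩ := h
  have hc : ∀ i, ∃ b : B, ((P.coeff i : cf hB hI K) : K) = a (mk' I (b : ℕ → ℂ)) := by
    intro i
    obtain ⟨b, hb, hbe⟩ := (P.coeff i : cf hB hI K).2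
    exact ⟨⟨b, hb⟩, hbe⟩
  choose b hb using hc
  let p : Polynomial B := ∑ i ∈ Finset.range (P.natDegree + 1),
    Polynomial.C (b i) * Polynomial.X ^ i
  have hcoef : p.coeff P.natDegree = b P.natDegree := by
    simp only [p, Polynomial.finsetSum_coeff, Polynomial.coeff_C_mul_X_pow]
    rw [Finset.sum_eq_single P.natDegree]
    · rw [if_pos rfl]
    · intro k _ hk
      rw [if_neg (Ne.symm hk)]
    · intro h
      exact absurd (Finset.self_mem_range_succ _) h
  refine ⟨p, ⟨P.natDegree, ?_⟩, ?_⟩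
  · rw [hcoef]
    intro h0
    have h1 : mk' I (b P.natDegree : ℕ → ℂ) = 0 := mk'_zero.2 (hI h0)
    have h2 := hb P.natDegree
    rw [h1, map_zero] at h2
    have h3 : P.leadingCoeff = 0 := Subtype.ext h2
    exact hP0 (Polynomial.leadingCoeff_eq_zero.1 h3)
  · rw [← mk'_zero (I := I)]
    apply hinj
    rw [map_zero, ← hP, Polynomial.aeval_eq_sum_range]
    simp only [p]
    rw [Polynomial.eval₂_finsetSum, map_sum, map_sum]
    refine Finset.sum_congr rfl fun i _ => ?_
    rw [Polynomial.eval₂_mul, Polynomial.eval₂_C, Polynomial.eval₂_pow, Polynomial.eval₂_X,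
      map_mul, map_mul, map_pow, map_pow, Algebra.smul_def]
    congr 1
    exact (hb i).symm

/-- The field `B'` of coefficients contains the field `B`, and it is generated by `B` and finitely
many sequences which satisfy linear recurrences over `B`. -/
def Step (B B' : Subalgebra ℂ (ℕ → ℂ)) : Prop :=
  B ≤ B' ∧ ∃ U : Set (ℕ → ℂ), U.Finite ∧ (∀ u ∈ U, LinRec B u) ∧ U ⊆ B' ∧
    ∀ b ∈ B', ∃ p ∈ Algebra.adjoin ℂ ((B : Set (ℕ → ℂ)) ∪ U),
      ∃ q ∈ Algebra.adjoin ℂ ((B : Set (ℕ → ℂ)) ∪ U),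
        (∀ᶠ m in atTop, q m ≠ 0) ∧ ∀ᶠ m in atTop, b m * q m = p m

/-- the inclusion of the fields -/
noncomputable def incK (hB : CoefField B) (hB' : CoefField B') (h : B ≤ B') :
    KB B hB →+* KB B' hB' :=
  Ideal.quotientMap (ez B') (Subalgebra.inclusion h : B →+* B') fun b hb => by
    rw [Ideal.mem_comap, mem_ez]
    exact mem_ez.1 hb

theorem incK_cK (hB : CoefField B) (hB' : CoefField B') (h : B ≤ B') (b : B) :
    incK hB hB' h (cK hB b) = cK hB' ⟨b, h b.2⟩ := rfl

theorem pow_mono {k k' : Type} [Field k] [Field k'] [Algebra k k'] {W : Submodule k k'}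
    (h1 : (1 : k') ∈ W) {D E : ℕ} (h : D ≤ E) : W ^ D ≤ W ^ E := by
  induction E, h using Nat.le_induction with
  | base => exact le_rfl
  | succ E _ ih =>
    intro x hx
    have h2 := Submodule.mul_mem_mul (ih hx) h1
    rwa [mul_one, ← pow_succ] at h2

/-- **Descent.** -/
theorem descend (hB : CoefField B) (hB' : CoefField B') (hst : Step B B') {ι : Type} [Fintype ι]
    {f r : ι → GG} {g : GG} (hf : ∀ j, LF (KB B' hB') (f j)) (hg : LF (KB B' hB') g)
    (hgu : IsUnit g) (hr : ∀ j, g * r j = f j) (hint : ∀ j, IsIntegral (KB B' hB') (r j)) :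
    ∃ q : GG, IsUnit q ∧ LF (KB B hB) q ∧ ∀ j, LF (KB B hB) (q * r j) := by
  classical
  obtain ⟨hBB, U, hU, hUr, hUB, hgenU⟩ := hst
  let _ : Algebra (KB B hB) (KB B' hB') := (incK hB hB' hBB).toAlgebra
  have halg : ∀ b : B, algebraMap (KB B hB) (KB B' hB') (cK hB b) = cK hB' ⟨b, hBB b.2⟩ :=
    fun b => rfl
  have htow : IsScalarTower (KB B hB) (KB B' hB') GG := IsScalarTower.of_algebraMap_eq fun c => by
    obtain ⟨b, rfl⟩ := cK_surj hB c
    rw [halg, alg_cK, alg_cK]
  obtain ⟨V, hVfg, hV1, hVU, hVst⟩ := LF.family (k := KB B hB) (shK hB) (shG_alg hB)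
    (hU.image gg) (by
      rintro _ ⟨u, hu, rfl⟩
      exact LF_of_linRec hB (hUr u hu))
  let aL : KB B' hB' →ₗ[KB B hB] GG := (IsScalarTower.toAlgHom (KB B hB) (KB B' hB') GG).toLinearMap
  have haL : ∀ y, aL y = algebraMap (KB B' hB') GG y := fun y => rfl
  have hainj : Function.Injective (algebraMap (KB B' hB') GG) :=
    (algebraMap (KB B' hB') GG).injective
  let W : Submodule (KB B hB) (KB B' hB') := V.comap aL
  have hWfg : W.FG := by
    have h1 : Module.Finite (KB B hB) V := Module.Finite.iff_fg.2 hVfg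
    have h2 : Module.Finite (KB B hB) W :=
      Module.Finite.of_injective (aL.restrict (p := W) (q := V) fun x hx => hx) (by
        intro a b hab
        apply Subtype.ext
        apply hainj
        exact congrArg Subtype.val hab)
    exact Module.Finite.iff_fg.1 h2
  have h1W : (1 : KB B' hB') ∈ W := by
    change aL 1 ∈ V
    rw [haL, map_one]
    exact hV1
  have hWst : ∀ w ∈ W, shK hB' w ∈ W := by
    intro w hw
    change aL (shK hB' w) ∈ V
    rw [haL, ← shG_alg]
    exact hVst _ hw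
  have hadj : ∀ p ∈ Algebra.adjoin ℂ ((B : Set (ℕ → ℂ)) ∪ U),
      ∃ (hp : p ∈ B') (D : ℕ), cK hB' ⟨p, hp⟩ ∈ W ^ D := by
    intro p hp
    induction hp using Algebra.adjoin_induction with
    | mem x hx =>
      rcases hx with hx | hx
      · refine ⟨hBB hx, 0, ?_⟩
        rw [pow_zero, ← halg ⟨x, hx⟩]
        exact Submodule.algebraMap_mem _
      · refine ⟨hUB hx, 1, ?_⟩
        rw [pow_one]
        change aL (cK hB' ⟨x, _⟩) ∈ V
        rw [haL, alg_cK]
        exact hVU ⟨x, hx, rfl⟩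
    | algebraMap c =>
      refine ⟨B'.algebraMap_mem c, 0, ?_⟩
      rw [pow_zero]
      have h1 := halg ⟨_, B.algebraMap_mem c⟩
      rw [← h1]
      exact Submodule.algebraMap_mem _
    | add x y _ _ hx hy =>
      obtain ⟨hx1, D, hD⟩ := hx
      obtain ⟨hy1, E, hE⟩ := hy
      refine ⟨B'.add_mem hx1 hy1, D + E, ?_⟩
      have h1 : cK hB' ⟨x + y, B'.add_mem hx1 hy1⟩ = cK hB' ⟨x, hx1⟩ + cK hB' ⟨y, hy1⟩ := by
        rw [← map_add]
        rfl
      rw [h1]
      exact Submodule.add_mem _ (pow_mono h1W (Nat.le_add_right D E) hD)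
        (pow_mono h1W (Nat.le_add_left E D) hE)
    | mul x y _ _ hx hy =>
      obtain ⟨hx1, D, hD⟩ := hx
      obtain ⟨hy1, E, hE⟩ := hy
      refine ⟨B'.mul_mem hx1 hy1, D + E, ?_⟩
      have h1 : cK hB' ⟨x * y, B'.mul_mem hx1 hy1⟩ = cK hB' ⟨x, hx1⟩ * cK hB' ⟨y, hy1⟩ := by
        rw [← map_mul]
        rfl
      rw [h1, pow_add]
      exact Submodule.mul_mem_mul hD hE
  have hgen : ∀ y : KB B' hB', ∃ (D : ℕ) (p q : KB B' hB'), p ∈ W ^ D ∧ q ∈ W ^ D ∧ q ≠ 0 ∧
      y * q = p := by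
    intro y
    obtain ⟨b, rfl⟩ := cK_surj hB' y
    obtain ⟨p, hp, q, hq, hq0, hpq⟩ := hgenU b b.2
    obtain ⟨hp1, D, hD⟩ := hadj p hp
    obtain ⟨hq1, E, hE⟩ := hadj q hq
    refine ⟨D + E, cK hB' ⟨p, hp1⟩, cK hB' ⟨q, hq1⟩, pow_mono h1W (Nat.le_add_right D E) hD,
      pow_mono h1W (Nat.le_add_left E D) hE, ?_, ?_⟩
    · intro h0
      obtain ⟨m, h1, h2⟩ := (hq0.and ((cK_zero hB').1 h0)).exists
      exact h1 h2
    · apply hainj
      rw [map_mul, alg_cK, alg_cK, alg_cK, ← map_mul, gg_eq]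
      exact hpq
  have hess : Algebra.EssFiniteType (KB B hB) (KB B' hB') := by
    rw [Algebra.essFiniteType_iff]
    obtain ⟨t, ht⟩ := hWfg
    have hle : ∀ D, W ^ D ≤ Subalgebra.toSubmodule (Algebra.adjoin (KB B hB)
        (t : Set (KB B' hB'))) := by
      intro D
      have h1 : W ≤ Subalgebra.toSubmodule (Algebra.adjoin (KB B hB)
          (t : Set (KB B' hB'))) := by
        rw [← ht]
        exact Algebra.span_le_adjoin _ _
      induction D with
      | zero =>
        rw [pow_zero, Submodule.one_le]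
        exact Subalgebra.one_mem _
      | succ D ih =>
        rw [pow_succ, Submodule.mul_le]
        intro a ha b hb
        exact Subalgebra.mul_mem _ (ih ha) (h1 hb)
    refine ⟨t, fun y => ?_⟩
    obtain ⟨D, p, q, hp, hq, hq0, hpq⟩ := hgen y
    refine ⟨q, hle D hq, isUnit_iff_ne_zero.2 hq0, ?_⟩
    rw [hpq]
    exact hle D hp
  -- each of the quotients
  have hone : ∀ j, ∃ q : GG, IsUnit q ∧ LF (KB B hB) q ∧ LF (KB B hB) (q * r j) := by
    intro j
    obtain ⟨S, hrS, hSst, hSfin⟩ := exists_S' (shK hB') (shG_alg hB') (hf j) hg hgu (hr j) (hint j)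
    have hred : IsReduced S := isReduced_of_injective S.val Subtype.val_injective
    have _ : IsScalarTower (KB B hB) (KB B' hB') S := IsScalarTower.of_algebraMap_eq fun c => by
      apply Subtype.ext
      exact IsScalarTower.algebraMap_apply (KB B hB) (KB B' hB') GG c
    let σ : S →+* S := shG.restrict S S fun x hx => hSst x hx
    have hσc : ∀ x : S, ((σ x : S) : GG) = shG x := fun x => rfl
    obtain ⟨D, q, hq, hq0, hqr⟩ := exists_mul_VR (S := S) hgen ⟨r j, hrS⟩
    have hfin : Module.Finite (KB B hB) (VR (WS S W) D) := VR_fin hWfg h1W D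
    have hstable : ∀ v ∈ VR (WS S W) D, σ v ∈ VR (WS S W) D := by
      intro v hv
      refine VR_stable (fun c => ⟨shK hB c, ?_⟩) ?_ hv
      · apply Subtype.ext
        rw [hσc]
        exact shG_alg hB c
      · rintro _ ⟨w, hw, rfl⟩
        refine ⟨shK hB' w, hWst w hw, ?_⟩
        apply Subtype.ext
        rw [hσc]
        exact (shG_alg hB' w).symm
    have hLF : ∀ v ∈ VR (WS S W) D, LF (KB B hB) (v : GG) := by
      intro v hv
      let sv : S →ₗ[KB B hB] GG :=
        { toFun := fun x => x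
          map_add' := fun _ _ => rfl
          map_smul' := fun _ _ => rfl }
      refine ⟨(VR (WS S W) D).map sv, (Module.Finite.iff_fg.1 hfin).map sv, ⟨v, hv, rfl⟩, ?_⟩
      rintro _ ⟨x, hx, rfl⟩
      exact ⟨σ x, hstable x hx, rfl⟩
    refine ⟨algebraMap (KB B' hB') GG q, (isUnit_iff_ne_zero.2 hq0).map _,
      hLF _ (VR_of_pow (mem_WS (S := S) hq)), hLF _ hqr⟩
  choose q hqu hq hqr using hone
  refine ⟨∏ j, q j, ?_, LF.prod (shK hB) (shG_alg hB) _ fun j _ => hq j, fun j => ?_⟩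
  · exact (IsUnit.prod_univ_iff (f := q)).2 hqu
  · have h1 : (∏ i, q i) * r j = (∏ i ∈ Finset.univ.erase j, q i) * (q j * r j) := by
      rw [← Finset.mul_prod_erase _ _ (Finset.mem_univ j)]
      ring
    rw [h1]
    exact (LF.prod (shK hB) (shG_alg hB) _ fun i _ => hq i).mul (hqr j)

end Pool.Agent.TH143.TW
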