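import Pool.Agent.TH143.TW.Rees
import Pool.Agent.TH143.HE.Quot

/-!
Finite difference algebras of germs of sequences over a field of coefficients.
-/

set_option autoImplicit false

namespace Pool.Agent.TH143.TW

open Filter Pool.Agent.TH143.DE Pool.Agent.TH143.HE

variable {k : Type} [Field k] [Algebra k GG]

/-- the germ is in a finite-dimensional space which is stable under the shift -/
def LF (k : Type) [Field k] [Algebra k GG] (x : GG) : Prop :=
  ∃ V : Submodule k GG, V.FG ∧ x ∈ V ∧ ∀ v ∈ V, shG v ∈ V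

theorem span_stable (τ : k →+* k)
    (hτ : ∀ c, shG (algebraMap k GG c) = algebraMap k GG (τ c)) {s : Set GG} {V : Submodule k GG}
    (h : ∀ y ∈ s, shG y ∈ V) : ∀ x ∈ Submodule.span k s, shG x ∈ V := by
  intro x hx
  induction hx using Submodule.span_induction with
  | mem x hx => exact h x hx
  | zero =>
    rw [map_zero]
    exact V.zero_mem
  | add x y _ _ hx hy =>
    rw [map_add]
    exact V.add_mem hx hy
  | smul c x _ hx =>
    rw [Algebra.smul_def, map_mul, hτ, ← Algebra.smul_def]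
    exact V.smul_mem _ hx

theorem LF.add {x y : GG} (hx : LF k x) (hy : LF k y) : LF k (x + y) := by
  obtain ⟨V, h1, h2, h3⟩ := hx
  obtain ⟨V', h1', h2', h3'⟩ := hy
  refine ⟨V ⊔ V', h1.sup h1', Submodule.add_mem_sup h2 h2', fun v hv => ?_⟩
  obtain ⟨a, ha, b, hb, rfl⟩ := Submodule.mem_sup.1 hv
  rw [map_add]
  exact Submodule.add_mem_sup (h3 a ha) (h3' b hb)

theorem mul_stable {V V' : Submodule k GG} (h : ∀ v ∈ V, shG v ∈ V) (h' : ∀ v ∈ V', shG v ∈ V') :
    ∀ v ∈ V * V', shG v ∈ V * V' := by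
  intro v hv
  refine Submodule.mul_induction_on hv (fun a ha b hb => ?_) fun a b ha hb => ?_
  · rw [map_mul]
    exact Submodule.mul_mem_mul (h a ha) (h' b hb)
  · rw [map_add]
    exact Submodule.add_mem _ ha hb

theorem LF.mul {x y : GG} (hx : LF k x) (hy : LF k y) : LF k (x * y) := by
  obtain ⟨V, h1, h2, h3⟩ := hx
  obtain ⟨V', h1', h2', h3'⟩ := hy
  exact ⟨V * V', h1.mul h1', Submodule.mul_mem_mul h2 h2', mul_stable h3 h3'⟩

theorem LF.alg (τ : k →+* k) (hτ : ∀ c, shG (algebraMap k GG c) = algebraMap k GG (τ c)) (c : k) :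
    LF k (algebraMap k GG c) := by
  refine ⟨Submodule.span k {1}, Submodule.fg_span_singleton 1, ?_, span_stable τ hτ ?_⟩
  · rw [Algebra.algebraMap_eq_smul_one]
    exact Submodule.smul_mem _ _ (Submodule.mem_span_singleton_self 1)
  · intro y hy
    rw [Set.mem_singleton_iff.1 hy, map_one]
    exact Submodule.mem_span_singleton_self 1

theorem LF.sum (τ : k →+* k) (hτ : ∀ c, shG (algebraMap k GG c) = algebraMap k GG (τ c))
    {ι : Type} (s : Finset ι) {f : ι → GG} (hf : ∀ i ∈ s, LF k (f i)) : LF k (∑ i ∈ s, f i) := by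
  classical
  induction s using Finset.induction_on with
  | empty =>
    rw [Finset.sum_empty, ← map_zero (algebraMap k GG)]
    exact LF.alg τ hτ 0
  | insert i s hi ih =>
    rw [Finset.sum_insert hi]
    exact (hf i (Finset.mem_insert_self i s)).add
      (ih fun j hj => hf j (Finset.mem_insert_of_mem hj))

theorem LF.prod (τ : k →+* k) (hτ : ∀ c, shG (algebraMap k GG c) = algebraMap k GG (τ c))
    {ι : Type} (s : Finset ι) {f : ι → GG} (hf : ∀ i ∈ s, LF k (f i)) : LF k (∏ i ∈ s, f i) := by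
  classical
  induction s using Finset.induction_on with
  | empty =>
    rw [Finset.prod_empty, ← map_one (algebraMap k GG)]
    exact LF.alg τ hτ 1
  | insert i s hi ih =>
    rw [Finset.prod_insert hi]
    exact (hf i (Finset.mem_insert_self i s)).mul
      (ih fun j hj => hf j (Finset.mem_insert_of_mem hj))

/-- a finite family -/
theorem LF.family (τ : k →+* k) (hτ : ∀ c, shG (algebraMap k GG c) = algebraMap k GG (τ c))
    {T : Set GG} (hT : T.Finite) (h : ∀ x ∈ T, LF k x) :
    ∃ V : Submodule k GG, V.FG ∧ 1 ∈ V ∧ T ⊆ V ∧ ∀ v ∈ V, shG v ∈ V := by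
  induction T, hT using Set.Finite.induction_on with
  | empty =>
    obtain ⟨V, h1, h2, h3⟩ := LF.alg τ hτ 1
    rw [map_one] at h2
    exact ⟨V, h1, h2, Set.empty_subset _, h3⟩
  | insert _ _ ih =>
    rename_i a s _ _
    obtain ⟨V, h1, h2, h3, h4⟩ := ih fun x hx => h x (Set.mem_insert_of_mem _ hx)
    obtain ⟨V', h1', h2', h3'⟩ := h a (Set.mem_insert _ _)
    refine ⟨V ⊔ V', h1.sup h1', Submodule.mem_sup_left h2, ?_, fun v hv => ?_⟩
    · rw [Set.insert_subset_iff]
      exact ⟨Submodule.mem_sup_right h2', fun x hx => Submodule.mem_sup_left (h3 hx)⟩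
    · obtain ⟨a, ha, b, hb, rfl⟩ := Submodule.mem_sup.1 hv
      rw [map_add]
      exact Submodule.add_mem_sup (h4 a ha) (h3' b hb)

theorem adjoin_stable' (τ : k →+* k)
    (hτ : ∀ c, shG (algebraMap k GG c) = algebraMap k GG (τ c)) {s : Set GG}
    (h : ∀ y ∈ s, shG y ∈ Algebra.adjoin k s) :
    ∀ x ∈ Algebra.adjoin k s, shG x ∈ Algebra.adjoin k s := by
  intro x hx
  induction hx using Algebra.adjoin_induction with
  | mem x hx => exact h x hx
  | algebraMap r =>
    rw [hτ]
    exact Subalgebra.algebraMap_mem _ _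
  | add x y _ _ hx hy =>
    rw [map_add]
    exact Subalgebra.add_mem _ hx hy
  | mul x y _ _ hx hy =>
    rw [map_mul]
    exact Subalgebra.mul_mem _ hx hy

/-- the algebra generated by a stable space -/
theorem LF.fgs (τ : k →+* k) (hτ : ∀ c, shG (algebraMap k GG c) = algebraMap k GG (τ c))
    {x : GG} (hx : LF k x) : ∃ s : Set GG, s.Finite ∧ x ∈ Algebra.adjoin k s ∧
      ∀ y ∈ Algebra.adjoin k s, shG y ∈ Algebra.adjoin k s := by
  classical
  obtain ⟨V, ⟨t, ht⟩, h2, h3⟩ := hx
  have h4 : ∀ y ∈ V, y ∈ Algebra.adjoin k (t : Set GG) := by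
    intro y hy
    rw [← ht] at hy
    exact Algebra.span_le_adjoin k (t : Set GG) hy
  refine ⟨t, t.finite_toSet, h4 x h2, adjoin_stable' τ hτ fun y hy => h4 _ (h3 _ ?_)⟩
  rw [← ht]
  exact Submodule.subset_span hy

theorem theta (P : Ideal GG) (hP : P.IsPrime) :
    ∃ (K : Type) (_ : Field K) (_ : Algebra k K) (θ : GG →ₐ[k] K), ∀ x, θ x = 0 ↔ x ∈ P := by
  let K := FractionRing (GG ⧸ P)
  let a : (GG ⧸ P) →ₐ[k] K := IsScalarTower.toAlgHom k (GG ⧸ P) K
  have ha : Function.Injective a := IsFractionRing.injective (GG ⧸ P) K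
  refine ⟨K, inferInstance, inferInstance, a.comp (Ideal.Quotient.mkₐ k P), fun x => ?_⟩
  rw [AlgHom.comp_apply, map_eq_zero_iff a ha]
  exact Ideal.Quotient.eq_zero_iff_mem

/-- **The finite difference algebra of an algebraic quotient.** -/
theorem exists_S' (τ : k →+* k) (hτ : ∀ c, shG (algebraMap k GG c) = algebraMap k GG (τ c))
    {f g r : GG} (hf : LF k f) (hg : LF k g) (hgu : IsUnit g) (hr : g * r = f)
    (hrint : IsIntegral k r) :
    ∃ S : Subalgebra k GG, r ∈ S ∧ (∀ x ∈ S, shG x ∈ S) ∧ Module.Finite k S := by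
  classical
  have hint : ∀ i : ℕ, IsIntegral k ((shG ^ i) r) := by
    intro i
    induction i with
    | zero => exact hrint
    | succ i ih =>
      rw [← shG_pow_succ]
      exact IsIntegral.map_of_comp_eq τ shG (RingHom.ext fun c => (hτ c).symm) ih
  obtain ⟨s1, hs1, hf1, hst1⟩ := hf.fgs τ hτ
  obtain ⟨s2, hs2, hg2, hst2⟩ := hg.fgs τ hτ
  set R1 := Algebra.adjoin k (s1 ∪ s2) with hR1
  have hle1 : Algebra.adjoin k s1 ≤ R1 := Algebra.adjoin_mono Set.subset_union_left
  have hle2 : Algebra.adjoin k s2 ≤ R1 := Algebra.adjoin_mono Set.subset_union_right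
  have hfk : ∀ k, (shG ^ k) f ∈ R1 := by
    intro k
    apply hle1
    induction k with
    | zero => exact hf1
    | succ k ih =>
      rw [← shG_pow_succ]
      exact hst1 _ ih
  have hgk : ∀ k, (shG ^ k) g ∈ R1 := by
    intro k
    apply hle2
    induction k with
    | zero => exact hg2
    | succ k ih =>
      rw [← shG_pow_succ]
      exact hst2 _ ih
  have hgu' : ∀ k, IsUnit ((shG ^ k) g) := fun k => hgu.map (shG ^ k)
  have hgr : ∀ k, (shG ^ k) g * (shG ^ k) r = (shG ^ k) f := by
    intro k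
    rw [← map_mul, hr]
  set S := Algebra.adjoin k (Set.range fun i => (shG ^ i) r) with hS
  -- a common denominator
  have hden : ∀ x ∈ S, ∃ τ ∈ R1, IsUnit τ ∧ τ * x ∈ R1 := by
    intro x hx
    induction hx using Algebra.adjoin_induction with
    | mem x hx =>
      obtain ⟨k, rfl⟩ := hx
      exact ⟨_, hgk k, hgu' k, by rw [hgr]; exact hfk k⟩
    | algebraMap c => exact ⟨1, R1.one_mem, isUnit_one, by rw [one_mul]; exact R1.algebraMap_mem c⟩
    | add x y _ _ hx hy =>
      obtain ⟨τ, h1, h2, h3⟩ := hx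
      obtain ⟨τ', h1', h2', h3'⟩ := hy
      refine ⟨τ * τ', R1.mul_mem h1 h1', h2.mul h2', ?_⟩
      have h4 : τ * τ' * (x + y) = τ' * (τ * x) + τ * (τ' * y) := by ring
      rw [h4]
      exact R1.add_mem (R1.mul_mem h1' h3) (R1.mul_mem h1 h3')
    | mul x y _ _ hx hy =>
      obtain ⟨τ, h1, h2, h3⟩ := hx
      obtain ⟨τ', h1', h2', h3'⟩ := hy
      refine ⟨τ * τ', R1.mul_mem h1 h1', h2.mul h2', ?_⟩
      have h4 : τ * τ' * (x * y) = (τ * x) * (τ' * y) := by ring
      rw [h4]
      exact R1.mul_mem h3 h3'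
  have hSint : ∀ x ∈ S, IsIntegral k x := by
    intro x hx
    have h1 : S ≤ integralClosure k GG := by
      rw [hS, Algebra.adjoin_le_iff]
      rintro _ ⟨k, rfl⟩
      exact hint k
    exact h1 hx
  -- minimal primes
  have hft : Algebra.FiniteType k R1 := by
    refine ⟨(Subalgebra.fg_top R1).2 ⟨(hs1.union hs2).toFinset, ?_⟩⟩
    rw [Set.Finite.coe_toFinset]
  have hnoeth : IsNoetherianRing R1 := Algebra.FiniteType.isNoetherianRing k R1
  have hminfin : (minimalPrimes R1).Finite := minimalPrimes.finite_of_isNoetherianRing R1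
  have _ : Fintype (minimalPrimes R1) := hminfin.fintype
  have hred : IsReduced R1 := isReduced_of_injective R1.val Subtype.val_injective
  have hprime : ∀ q : minimalPrimes R1, ∃ P : Ideal GG, P.IsPrime ∧
      P.comap (R1.val : R1 →+* GG) = q := fun q =>
    Ideal.exists_comap_eq_of_mem_minimalPrimes_of_injective Subtype.val_injective _ q.2
  choose Pq hPq hPc using hprime
  -- the maps to finite-dimensional spaces
  have hmap : ∀ q : minimalPrimes R1, ∃ (M : Type) (_ : AddCommGroup M) (_ : Module k M)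
      (_ : Module.Finite k M) (Φ : S →ₗ[k] M), ∀ x, Φ x = 0 → (x : GG) ∈ Pq q := by
    intro q
    obtain ⟨K, _, _, θ, hθ⟩ := theta (k := k) (Pq q) (hPq q)
    let E := IntermediateField.adjoin k (θ '' (s1 ∪ s2))
    have hR1E : ∀ x ∈ R1, θ x ∈ E := by
      intro x hx
      have h1 : R1.map θ ≤ E.toSubalgebra := by
        rw [hR1, AlgHom.map_adjoin, Algebra.adjoin_le_iff]
        exact IntermediateField.subset_adjoin _ _
      exact h1 ⟨x, hx, rfl⟩
    have hSE : ∀ x ∈ S, θ x ∈ E := by
      intro x hx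
      obtain ⟨τ, h1, h2, h3⟩ := hden x hx
      have h4 : θ τ ≠ 0 := (h2.map θ).ne_zero
      have h5 : θ x = θ (τ * x) / θ τ := by
        rw [map_mul, mul_div_cancel_left₀ _ h4]
      rw [h5]
      exact E.div_mem (hR1E _ h3) (hR1E _ h1)
    have hEfg : Algebra.EssFiniteType k E := by
      rw [IntermediateField.essFiniteType_iff]
      refine ⟨((hs1.union hs2).image θ).toFinset, ?_⟩
      rw [Set.Finite.coe_toFinset]
    have hfin : FiniteDimensional k (algebraicClosure k E) := finite_algClosure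
    let L : S →ₗ[k] E :=
      { toFun := fun x => ⟨θ x, hSE x x.2⟩
        map_add' := fun x y => Subtype.ext (map_add θ _ _)
        map_smul' := fun c x => Subtype.ext (map_smul θ _ _) }
    have hL : ∀ x, L x ∈ Subalgebra.toSubmodule (algebraicClosure k E).toSubalgebra := by
      intro x
      change L x ∈ algebraicClosure k E
      rw [mem_algebraicClosure_iff]
      have h1 : IsIntegral k (θ x) := (hSint x x.2).map θ
      have h2 : IsIntegral k (L x) := by
        have h3 : (algebraMap E K) (L x) = θ x := rfl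
        rw [← h3] at h1
        exact (isIntegral_algebraMap_iff (algebraMap E K).injective).1 h1
      exact h2.isAlgebraic
    refine ⟨algebraicClosure k E, inferInstance, inferInstance, hfin,
      L.codRestrict (Subalgebra.toSubmodule (algebraicClosure k E).toSubalgebra) hL,
      fun x hx => ?_⟩
    have h1 : L x = 0 := congrArg Subtype.val hx
    have h2 : θ x = 0 := congrArg Subtype.val h1
    exact (hθ x).1 h2
  choose M iM1 iM2 iM3 Φ hΦ using hmap
  refine ⟨S, Algebra.subset_adjoin ⟨0, rfl⟩, adjoin_stable' τ hτ ?_, ?_⟩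
  · rintro _ ⟨i, rfl⟩
    change shG ((shG ^ i) r) ∈ S
    rw [shG_pow_succ]
    exact Algebra.subset_adjoin ⟨i + 1, rfl⟩
  · have hinj : Function.Injective (LinearMap.pi Φ : S →ₗ[k] (∀ q, M q)) := by
      rw [injective_iff_map_eq_zero]
      intro x hx
      have h1 : ∀ q, (x : GG) ∈ Pq q := fun q => hΦ q x (congrFun hx q)
      obtain ⟨τ, h2, h3, h4⟩ := hden x x.2
      have h5 : (⟨τ * x, h4⟩ : R1) ∈ nilradical R1 := by
        have h6 : nilradical R1 = sInf (minimalPrimes R1) :=
          (Ideal.sInf_minimalPrimes (I := (⊥ : Ideal R1))).symm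
        rw [h6, Ideal.mem_sInf]
        intro q hq
        have h7 := hPc ⟨q, hq⟩
        change _ = q at h7
        rw [← h7, Ideal.mem_comap]
        exact (Pq ⟨q, hq⟩).mul_mem_left _ (h1 ⟨q, hq⟩)
      rw [nilradical_eq_zero] at h5
      have h6 : τ * (x : GG) = 0 := congrArg Subtype.val h5
      apply Subtype.ext
      exact (h3.mul_right_eq_zero).1 h6
    exact Module.Finite.of_injective _ hinj

/-- algebraic modulo all prime ideals -/
theorem int_of_primes {y : GG} (h : ∀ P : Ideal GG, P.IsPrime →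
    ∃ p : Polynomial k, p ≠ 0 ∧ Polynomial.aeval y p ∈ P) : IsIntegral k y := by
  by_contra hcon
  have hcon' : ∀ p : Polynomial k, p ≠ 0 → Polynomial.aeval y p ≠ 0 := by
    intro p hp h0
    apply hcon
    rw [← isAlgebraic_iff_isIntegral]
    exact ⟨p, hp, h0⟩
  let T : Submonoid GG :=
    { carrier := {f | ∃ p : Polynomial k, p ≠ 0 ∧ f = Polynomial.aeval y p}
      mul_mem' := by
        rintro _ _ ⟨P, hP, rfl⟩ ⟨P', hP', rfl⟩
        exact ⟨P * P', mul_ne_zero hP hP', by rw [map_mul]⟩
      one_mem' := ⟨1, one_ne_zero, by rw [map_one]⟩ }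
  have hdisj : Disjoint ((⊥ : Ideal GG) : Set GG) T := by
    rw [Set.disjoint_left]
    rintro f hf ⟨P, hP, rfl⟩
    exact hcon' P hP ((Submodule.mem_bot _).1 hf)
  obtain ⟨I, hIp, -, hIT⟩ := Ideal.exists_le_prime_disjoint ⊥ T hdisj
  obtain ⟨P, hP, hPI⟩ := h I hIp
  exact Set.disjoint_left.1 hIT hPI ⟨P, hP, rfl⟩

end Pool.Agent.TH143.TW
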