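import Pool.Agent.TH143.HE.FinAlg

/-!
Finiteness of integral closures over finitely generated algebras.
-/

set_option autoImplicit false

namespace Pool.Agent.TH143.TW

open MvPolynomial Pool.Agent.TH143.HE

/-- one field -/
theorem noeth_map {k P N E : Type} [Field k] [CharZero k] [CommRing P] [IsDomain P]
    [IsIntegrallyClosed P] [IsNoetherianRing P] [Algebra k P] [AddCommGroup N] [Module P N]
    [Field E] [Algebra k E] [Algebra P E] [IsScalarTower k P E] [Algebra.EssFiniteType k E]
    (hinj : Function.Injective (algebraMap P E)) (θ : N →ₗ[P] E)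
    (hθ : ∀ x, IsIntegral P (θ x)) :
    ∃ (M : Type) (_ : AddCommGroup M) (_ : Module P M) (_ : IsNoetherian P M) (Θ : N →ₗ[P] M),
      ∀ x, Θ x = 0 → θ x = 0 := by
  let Q := FractionRing P
  let _ : Algebra Q E := (IsFractionRing.lift hinj).toAlgebra
  have _ : IsScalarTower P Q E := IsScalarTower.of_algebraMap_eq fun r =>
    (IsFractionRing.lift_algebraMap hinj r).symm
  have _ : IsScalarTower k Q E := IsScalarTower.of_algebraMap_eq fun r => by
    rw [IsScalarTower.algebraMap_apply k P E, IsScalarTower.algebraMap_apply k P Q,
      ← IsScalarTower.algebraMap_apply P Q E]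
  have _ : Algebra.EssFiniteType Q E := Algebra.EssFiniteType.of_comp k Q E
  let M := algebraicClosure Q E
  have _ : FiniteDimensional Q M := finite_algClosure
  have _ : CharZero P := charZero_of_injective_algebraMap (algebraMap k P).injective
  have _ : CharZero Q := charZero_of_injective_algebraMap (IsFractionRing.injective P Q)
  have hN : IsNoetherian P (integralClosure P M) :=
    IsIntegralClosure.isNoetherian P Q M (integralClosure P M)
  have hM : ∀ x, θ x ∈ M := by
    intro x
    change θ x ∈ algebraicClosure Q E
    rw [mem_algebraicClosure_iff]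
    exact ((hθ x).tower_top (A := Q)).isAlgebraic
  have hI : ∀ x, (⟨θ x, hM x⟩ : M) ∈ integralClosure P M := by
    intro x
    have h1 := hθ x
    have h2 : algebraMap M E ⟨θ x, hM x⟩ = θ x := rfl
    have _ : IsScalarTower P M E := IsScalarTower.of_algebraMap_eq fun r => rfl
    rw [← h2] at h1
    exact (isIntegral_algebraMap_iff (algebraMap M E).injective).1 h1
  refine ⟨integralClosure P M, inferInstance, inferInstance, hN,
    { toFun := fun x => ⟨⟨θ x, hM x⟩, hI x⟩
      map_add' := fun x y => Subtype.ext (Subtype.ext (map_add θ x y))
      map_smul' := fun c x => Subtype.ext (Subtype.ext (map_smul θ c x)) }, fun x hx => ?_⟩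
  have h1 := congrArg (fun y : integralClosure P M => ((y : M) : E)) hx
  exact h1

/-- **Finiteness of the integral closure.** -/
theorem finite_intCl {k A T ι : Type} [Field k] [CharZero k] [CommRing A] [Algebra k A]
    [Algebra.FiniteType k A] [CommRing T] [Algebra A T] [Finite ι] [Nonempty ι]
    (E : ι → Type) [∀ i, Field (E i)] [∀ i, Algebra k (E i)]
    [∀ i, Algebra.EssFiniteType k (E i)] (θ : ∀ i, T →+* E i)
    (hk : ∀ i (c : k), θ i (algebraMap A T (algebraMap k A c)) = algebraMap k (E i) c)
    (hA : ∀ i, Function.Injective ((θ i).comp (algebraMap A T)))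
    (hT : ∀ x, (∀ i, θ i x = 0) → x = 0) :
    Module.Finite A (integralClosure A T) := by
  classical
  have _ := Fintype.ofFinite ι
  obtain ⟨i0⟩ := ‹Nonempty ι›
  have hnt : Nontrivial A := ((θ i0).comp (algebraMap A T)).domain_nontrivial
  obtain ⟨s, g, hg, hgi⟩ := exists_integral_inj_algHom_of_fg k A
  let P := MvPolynomial (Fin s) k
  let _ : Algebra P A := g.toRingHom.toAlgebra
  have hPA : ∀ p : P, algebraMap P A p = g p := fun p => rfl
  let _ : Algebra P T := ((algebraMap A T).comp (algebraMap P A)).toAlgebra
  have _ : IsScalarTower P A T := IsScalarTower.of_algebraMap_eq fun r => rfl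
  have _ : Algebra.IsIntegral P A := ⟨hgi⟩
  have hmap : ∀ i : ι, ∃ (M : Type) (_ : AddCommGroup M) (_ : Module P M) (_ : IsNoetherian P M)
      (Θ : integralClosure A T →ₗ[P] M), ∀ x, Θ x = 0 → θ i x = 0 := by
    intro i
    let _ : Algebra P (E i) := ((θ i).comp (algebraMap P T)).toAlgebra
    have hPE : ∀ p : P, algebraMap P (E i) p = θ i (algebraMap P T p) := fun p => rfl
    have hkP : ∀ c : k, algebraMap P A (algebraMap k P c) = algebraMap k A c := by
      intro c
      rw [hPA]
      exact g.commutes c
    have _ : IsScalarTower k P (E i) := IsScalarTower.of_algebraMap_eq fun c => by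
      rw [hPE, IsScalarTower.algebraMap_apply P A T, hkP, hk]
    have hinj : Function.Injective (algebraMap P (E i)) := by
      intro a b hab
      rw [hPE, hPE, IsScalarTower.algebraMap_apply P A T, IsScalarTower.algebraMap_apply P A T,
        hPA, hPA] at hab
      exact hg (hA i hab)
    let L : integralClosure A T →ₗ[P] E i :=
      { toFun := fun x => θ i x
        map_add' := fun x y => map_add (θ i) _ _
        map_smul' := fun c x => by
          have h1 : ((c • x : integralClosure A T) : T) = algebraMap P T c * (x : T) := by
            rw [← Algebra.smul_def]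
            rfl
          change θ i ((c • x : integralClosure A T) : T) = algebraMap P (E i) c * θ i x
          rw [h1, hPE, map_mul] }
    have hint : ∀ x, IsIntegral P (L x) := by
      intro x
      have h1 : IsIntegral A (x : T) := x.2
      have h2 : IsIntegral P (x : T) := isIntegral_trans (x : T) h1
      exact IsIntegral.map_of_comp_eq (RingHom.id P) (θ i) (RingHom.ext fun p => rfl) h2
    exact noeth_map (k := k) hinj L hint
  choose M iM1 iM2 iM3 Θ hΘ using hmap
  have hinj : Function.Injective (LinearMap.pi Θ : integralClosure A T →ₗ[P] (∀ i, M i)) := by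
    rw [injective_iff_map_eq_zero]
    intro x hx
    apply Subtype.ext
    exact hT _ fun i => hΘ i x (congrFun hx i)
  have h1 : IsNoetherian P (integralClosure A T) := isNoetherian_of_injective _ hinj
  have h2 : Module.Finite P (integralClosure A T) := Module.IsNoetherian.finite P _
  exact Module.Finite.of_restrictScalars_finite P A _

end Pool.Agent.TH143.TW
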