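import Pool.Agent.TH143.TW.IntCl

/-!
The Rees algebra, and finite extensions of the function field of the solutions of a linear system:
their elements are quotients of elements of finite-dimensional stable spaces.
-/

set_option autoImplicit false

namespace Pool.Agent.TH143.TW

open Polynomial

section

variable {k S : Type} [Field k] [CommRing S] [Algebra k S]

/-- the Rees algebra -/
noncomputable def RA (W : Submodule k S) : Subalgebra k S[X] :=
  Algebra.adjoin k ((fun w : S => C w * X) '' (W : Set S))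

theorem RA_coeff {W : Submodule k S} {a : S[X]} (ha : a ∈ RA W) : ∀ e, a.coeff e ∈ W ^ e := by
  induction ha using Algebra.adjoin_induction with
  | mem a ha =>
    obtain ⟨w, hw, rfl⟩ := ha
    intro e
    change (C w * X).coeff e ∈ W ^ e
    rw [coeff_C_mul_X]
    by_cases he : e = 1
    · rw [if_pos he, he, pow_one]
      exact hw
    · rw [if_neg he]
      exact Submodule.zero_mem _
  | algebraMap r =>
    intro e
    rw [Polynomial.algebraMap_apply, coeff_C]
    by_cases he : e = 0
    · rw [if_pos he, he, pow_zero]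
      exact Submodule.algebraMap_mem r
    · rw [if_neg he]
      exact Submodule.zero_mem _
  | add x y _ _ hx hy =>
    intro e
    rw [coeff_add]
    exact Submodule.add_mem _ (hx e) (hy e)
  | mul x y _ _ hx hy =>
    intro e
    rw [coeff_mul]
    refine Submodule.sum_mem _ fun p hp => ?_
    have h1 := Finset.HasAntidiagonal.mem_antidiagonal.1 hp
    rw [← h1, pow_add]
    exact Submodule.mul_mem_mul (hx _) (hy _)

theorem RA_mem {W : Submodule k S} {e : ℕ} {w : S} (hw : w ∈ W ^ e) : C w * X ^ e ∈ RA W := by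
  induction e generalizing w with
  | zero =>
    rw [pow_zero] at hw ⊢
    obtain ⟨r, rfl⟩ := Submodule.mem_one.1 hw
    rw [mul_one]
    exact (RA W).algebraMap_mem r
  | succ e ih =>
    rw [pow_succ] at hw
    refine Submodule.mul_induction_on hw (fun a ha b hb => ?_) fun x y hx hy => ?_
    · have h1 : (C (a * b) * X ^ (e + 1) : S[X]) = C a * X ^ e * (C b * X) := by
        rw [C_mul]
        ring
      rw [h1]
      exact (RA W).mul_mem (ih ha) (Algebra.subset_adjoin ⟨b, hb, rfl⟩)
    · rw [C_add, add_mul]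
      exact (RA W).add_mem hx hy

theorem RA_finiteType {W : Submodule k S} (hW : W.FG) : Algebra.FiniteType k (RA W) := by
  classical
  obtain ⟨t, ht⟩ := hW
  refine ⟨(Subalgebra.fg_top (RA W)).2 ⟨t.image fun w => C w * X, ?_⟩⟩
  apply le_antisymm
  · rw [Algebra.adjoin_le_iff, Finset.coe_image]
    rintro _ ⟨w, hw, rfl⟩
    refine Algebra.subset_adjoin ⟨w, ?_, rfl⟩
    rw [← ht]
    exact Submodule.subset_span hw
  · unfold RA
    rw [Algebra.adjoin_le_iff]
    rintro _ ⟨w, hw, rfl⟩
    rw [← ht] at hw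
    change C w * X ∈ Algebra.adjoin k _
    induction hw using Submodule.span_induction with
    | mem x hx =>
      refine Algebra.subset_adjoin ?_
      rw [Finset.coe_image]
      exact ⟨x, hx, rfl⟩
    | zero =>
      rw [C_0, zero_mul]
      exact Subalgebra.zero_mem _
    | add x y _ _ hx hy =>
      rw [C_add, add_mul]
      exact Subalgebra.add_mem _ hx hy
    | smul a x _ hx =>
      have h1 : (C (a • x) * X : S[X]) = a • (C x * X) := by
        rw [Algebra.smul_def, Algebra.smul_def, Polynomial.algebraMap_apply, C_mul]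
        ring
      rw [h1]
      exact Subalgebra.smul_mem _ hx a

/-- the elements of bounded order -/
noncomputable def VR (W : Submodule k S) (D : ℕ) : Submodule k S where
  carrier := {f | IsIntegral (RA W) (C f * X ^ D : S[X])}
  add_mem' := by
    intro f g hf hg
    change IsIntegral _ _
    rw [C_add, add_mul]
    exact hf.add hg
  zero_mem' := by
    change IsIntegral _ _
    rw [C_0, zero_mul]
    exact isIntegral_zero
  smul_mem' := by
    intro c f hf
    change IsIntegral _ _
    have h1 : (C (c • f) * X ^ D : S[X]) = algebraMap (RA W) S[X] (algebraMap k (RA W) c) *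
        (C f * X ^ D) := by
      have h2 : algebraMap (RA W) S[X] (algebraMap k (RA W) c) = C (algebraMap k S c) := rfl
      rw [h2, Algebra.smul_def, C_mul]
      ring
    rw [h1]
    exact isIntegral_algebraMap.mul hf

theorem mem_VR {W : Submodule k S} {D : ℕ} {f : S} :
    f ∈ VR W D ↔ IsIntegral (RA W) (C f * X ^ D : S[X]) := Iff.rfl

theorem VR_mul {W : Submodule k S} {D E : ℕ} {f g : S} (hf : f ∈ VR W D) (hg : g ∈ VR W E) :
    f * g ∈ VR W (D + E) := by
  rw [mem_VR] at hf hg ⊢
  have h1 : (C (f * g) * X ^ (D + E) : S[X]) = C f * X ^ D * (C g * X ^ E) := by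
    rw [C_mul]
    ring
  rw [h1]
  exact hf.mul hg

theorem VR_of_pow {W : Submodule k S} {D : ℕ} {f : S} (hf : f ∈ W ^ D) : f ∈ VR W D := by
  rw [mem_VR]
  have h1 : (C f * X ^ D : S[X]) = algebraMap (RA W) S[X] ⟨_, RA_mem hf⟩ := rfl
  rw [h1]
  exact isIntegral_algebraMap

/-- stability -/
theorem VR_stable {W : Submodule k S} {σ : S →+* S}
    (hσk : ∀ c : k, ∃ c' : k, σ (algebraMap k S c) = algebraMap k S c')
    (hW : ∀ w ∈ W, σ w ∈ W) {D : ℕ} {f : S} (hf : f ∈ VR W D) : σ f ∈ VR W D := by
  have h1 : ∀ a ∈ RA W, mapRingHom σ a ∈ RA W := by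
    intro a ha
    induction ha using Algebra.adjoin_induction with
    | mem a ha =>
      obtain ⟨w, hw, rfl⟩ := ha
      change mapRingHom σ (C w * X) ∈ RA W
      rw [coe_mapRingHom, Polynomial.map_mul, map_C, map_X]
      exact Algebra.subset_adjoin ⟨σ w, hW w hw, rfl⟩
    | algebraMap r =>
      obtain ⟨c, hc⟩ := hσk r
      rw [coe_mapRingHom, Polynomial.algebraMap_apply, map_C, hc]
      exact (RA W).algebraMap_mem c
    | add x y _ _ hx hy =>
      rw [map_add]
      exact (RA W).add_mem hx hy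
    | mul x y _ _ hx hy =>
      rw [map_mul]
      exact (RA W).mul_mem hx hy
  rw [mem_VR] at hf ⊢
  have h2 := IsIntegral.map_of_comp_eq ((mapRingHom σ).restrict (RA W) (RA W) h1)
    (mapRingHom σ) (RingHom.ext fun p => rfl) hf
  rw [coe_mapRingHom, Polynomial.map_mul, Polynomial.map_pow, map_C, map_X] at h2
  exact h2

end

section

variable {k k' S : Type} [Field k] [CharZero k] [Field k'] [Algebra k k'] [CommRing S]
  [Algebra k' S] [Algebra k S] [IsScalarTower k k' S]

/-- the image in the algebra -/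
noncomputable abbrev WS (S : Type) [CommRing S] [Algebra k' S] [Algebra k S]
    [IsScalarTower k k' S] (W : Submodule k k') : Submodule k S :=
  W.map (IsScalarTower.toAlgHom k k' S).toLinearMap

omit [CharZero k] in
theorem mem_WS {W : Submodule k k'} {D : ℕ} {w : k'} (hw : w ∈ W ^ D) :
    algebraMap k' S w ∈ WS S W ^ D := by
  have h1 : (W ^ D).map (IsScalarTower.toAlgHom k k' S).toLinearMap = WS S W ^ D :=
    Submodule.map_pow W (IsScalarTower.toAlgHom k k' S) D
  rw [← h1]
  exact ⟨w, hw, rfl⟩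

/-- **Finiteness.** -/
theorem VR_fin [IsReduced S] [Module.Finite k' S] [Algebra.EssFiniteType k k']
    {W : Submodule k k'} (hW : W.FG) (h1W : (1 : k') ∈ W) (D : ℕ) :
    Module.Finite k (VR (WS S W) D) := by
  classical
  rcases subsingleton_or_nontrivial S with hsub | hnt
  · exact Module.Finite.of_surjective (0 : k →ₗ[k] VR (WS S W) D) fun x => ⟨0, Subsingleton.elim _ _⟩
  have hart : IsArtinianRing S := IsArtinianRing.of_finite k' S
  let E : MaximalSpectrum S → Type := fun 𝔪 => FractionRing (Polynomial (S ⧸ 𝔪.asIdeal))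
  have hmax : ∀ 𝔪 : MaximalSpectrum S, IsDomain (S ⧸ 𝔪.asIdeal) := fun 𝔪 =>
    have := 𝔪.isMaximal
    Ideal.Quotient.isDomain 𝔪.asIdeal
  let instF : ∀ 𝔪, Field (E 𝔪) := fun 𝔪 => inferInstanceAs
    (Field (FractionRing (Polynomial (S ⧸ 𝔪.asIdeal))))
  let instA : ∀ 𝔪, Algebra k (E 𝔪) := fun 𝔪 => inferInstanceAs
    (Algebra k (FractionRing (Polynomial (S ⧸ 𝔪.asIdeal))))
  have instE : ∀ 𝔪, Algebra.EssFiniteType k (E 𝔪) := by
    intro 𝔪
    change Algebra.EssFiniteType k (FractionRing (Polynomial (S ⧸ 𝔪.asIdeal)))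
    have h1 : Algebra.EssFiniteType k' (S ⧸ 𝔪.asIdeal) := inferInstance
    have h2 : Algebra.EssFiniteType k (S ⧸ 𝔪.asIdeal) :=
      Algebra.EssFiniteType.comp k k' (S ⧸ 𝔪.asIdeal)
    have h3 : Algebra.EssFiniteType (S ⧸ 𝔪.asIdeal) (Polynomial (S ⧸ 𝔪.asIdeal)) := inferInstance
    have h4 : Algebra.EssFiniteType k (Polynomial (S ⧸ 𝔪.asIdeal)) :=
      Algebra.EssFiniteType.comp k (S ⧸ 𝔪.asIdeal) _
    have h5 : Algebra.EssFiniteType (Polynomial (S ⧸ 𝔪.asIdeal))
        (FractionRing (Polynomial (S ⧸ 𝔪.asIdeal))) :=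
      Algebra.EssFiniteType.of_isLocalization _ (nonZeroDivisors _)
    exact Algebra.EssFiniteType.comp k (Polynomial (S ⧸ 𝔪.asIdeal)) _
  let θ : ∀ 𝔪 : MaximalSpectrum S, S[X] →+* E 𝔪 := fun 𝔪 =>
    (algebraMap (Polynomial (S ⧸ 𝔪.asIdeal)) (FractionRing (Polynomial (S ⧸ 𝔪.asIdeal)))).comp
      (mapRingHom (Ideal.Quotient.mk 𝔪.asIdeal))
  have hθ : ∀ 𝔪 x, θ 𝔪 x = algebraMap (Polynomial (S ⧸ 𝔪.asIdeal))
      (FractionRing (Polynomial (S ⧸ 𝔪.asIdeal))) (x.map (Ideal.Quotient.mk 𝔪.asIdeal)) :=
    fun 𝔪 x => rfl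
  have hθ0 : ∀ 𝔪 x, θ 𝔪 x = 0 → x.map (Ideal.Quotient.mk 𝔪.asIdeal) = 0 := by
    intro 𝔪 x hx
    rw [hθ] at hx
    exact (map_eq_zero_iff _ (IsFractionRing.injective (Polynomial (S ⧸ 𝔪.asIdeal))
      (FractionRing (Polynomial (S ⧸ 𝔪.asIdeal))))).1 hx
  have hWfg : (WS S W).FG := hW.map _
  have _ : Algebra.FiniteType k (RA (WS S W)) := RA_finiteType hWfg
  have hfin : Module.Finite (RA (WS S W)) (integralClosure (RA (WS S W)) S[X]) := by
    refine finite_intCl (k := k) E θ ?_ ?_ ?_
    · intro 𝔪 c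
      have h1 : algebraMap (RA (WS S W)) S[X] (algebraMap k (RA (WS S W)) c) =
        C (algebraMap k S c) := rfl
      rw [h1, hθ, map_C]
      rfl
    · intro 𝔪
      rw [injective_iff_map_eq_zero]
      intro a ha
      have h1 := hθ0 𝔪 (a : S[X]) ha
      have h2 : RA (WS S W) ≤ (mapAlgHom (IsScalarTower.toAlgHom k k' S)).range := by
        unfold RA
        rw [Algebra.adjoin_le_iff]
        rintro _ ⟨w, ⟨w', _, rfl⟩, rfl⟩
        refine ⟨C w' * X, ?_⟩
        change (C w' * X : k'[X]).map (algebraMap k' S) = C (algebraMap k' S w') * X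
        rw [Polynomial.map_mul, map_C, map_X]
      obtain ⟨b, hb⟩ := h2 a.2
      have hb' : b.map (algebraMap k' S) = a := hb
      rw [← hb', Polynomial.map_map] at h1
      have := 𝔪.isMaximal
      have h3 : Function.Injective ((Ideal.Quotient.mk 𝔪.asIdeal).comp (algebraMap k' S)) :=
        ((Ideal.Quotient.mk 𝔪.asIdeal).comp (algebraMap k' S)).injective
      have h4 : b = 0 := by
        rwa [Polynomial.map_eq_zero_iff h3] at h1
      apply Subtype.ext
      rw [← hb', h4, Polynomial.map_zero]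
      rfl
    · intro x hx
      ext i
      rw [coeff_zero]
      have h1 : x.coeff i ∈ nilradical S := by
        rw [nilradical_eq_sInf, Ideal.mem_sInf]
        intro J hJ
        have hJp : J.IsPrime := hJ
        have hJm : J.IsMaximal := IsArtinianRing.isMaximal_of_isPrime J
        have h2 := hθ0 ⟨J, hJm⟩ x (hx ⟨J, hJm⟩)
        have h3 := congrArg (fun q => q.coeff i) h2
        simp only [coeff_map, coeff_zero] at h3
        exact Ideal.Quotient.eq_zero_iff_mem.1 h3
      rw [nilradical_eq_zero] at h1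
      exact h1
  -- the coefficients of the generators
  set A := RA (WS S W) with hA
  obtain ⟨gens, hgens⟩ := hfin.fg_top
  let G : Submodule k S := Submodule.span k (⋃ g ∈ gens, (((g : S[X]).coeffs : Set S) ∪ {0}))
  have hG : G.FG := by
    apply Submodule.fg_span
    refine Set.Finite.biUnion gens.finite_toSet fun g _ => ?_
    exact (Finset.finite_toSet _).union (Set.finite_singleton 0)
  have h1WS : (1 : S) ∈ WS S W := ⟨1, h1W, map_one (algebraMap k' S)⟩
  have hcoef : ∀ g ∈ gens, ∀ i, (g : S[X]).coeff i ∈ G := by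
    intro g hg i
    refine Submodule.subset_span (Set.mem_biUnion hg ?_)
    by_cases h0 : (g : S[X]).coeff i = 0
    · right
      exact h0
    · left
      exact coeff_mem_coeffs h0
  have hmain : ∀ F : integralClosure A S[X], ∀ d, (F : S[X]).coeff d ∈ WS S W ^ d * G := by
    intro F
    have hF : F ∈ Submodule.span A (gens : Set (integralClosure A S[X])) := by
      rw [hgens]
      exact Submodule.mem_top
    induction hF using Submodule.span_induction with
    | mem x hx =>
      intro d
      have h2 := Submodule.mul_mem_mul (Submodule.pow_mem_pow (WS S W) h1WS d) (hcoef x hx d)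
      rwa [one_pow, one_mul] at h2
    | zero =>
      intro d
      change (0 : S[X]).coeff d ∈ _
      rw [coeff_zero]
      exact Submodule.zero_mem _
    | add x y _ _ hx hy =>
      intro d
      change ((x : S[X]) + (y : S[X])).coeff d ∈ _
      rw [coeff_add]
      exact Submodule.add_mem _ (hx d) (hy d)
    | smul a x _ hx =>
      intro d
      change ((a : S[X]) * (x : S[X])).coeff d ∈ _
      rw [coeff_mul]
      refine Submodule.sum_mem _ fun p hp => ?_
      have h2 := Finset.HasAntidiagonal.mem_antidiagonal.1 hp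
      rw [← h2, pow_add, mul_assoc]
      exact Submodule.mul_mem_mul (RA_coeff a.2 _) (hx _)
  have hle : VR (WS S W) D ≤ WS S W ^ D * G := by
    intro f hf
    have h2 := hmain ⟨_, hf⟩ D
    have h3 : (C f * X ^ D : S[X]).coeff D = f := by
      rw [coeff_C_mul_X_pow, if_pos rfl]
    rwa [h3] at h2
  have hfg : (WS S W ^ D * G).FG := (hWfg.pow D).mul hG
  have _ : Module.Finite k (WS S W ^ D * G : Submodule k S) := Module.Finite.iff_fg.2 hfg
  exact Module.Finite.of_injective (Submodule.inclusion hle) (Submodule.inclusion_injective hle)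

omit [CharZero k] in
/-- **Denominators.** -/
theorem exists_mul_VR [Module.Finite k' S] {W : Submodule k k'}
    (hgen : ∀ y : k', ∃ (D : ℕ) (p q : k'), p ∈ W ^ D ∧ q ∈ W ^ D ∧ q ≠ 0 ∧
      y * q = p) (f : S) :
    ∃ (D : ℕ) (q : k'), q ∈ W ^ D ∧ q ≠ 0 ∧ algebraMap k' S q * f ∈ VR (WS S W) D := by
  classical
  obtain ⟨P, hP, hP0⟩ := Algebra.IsIntegral.isIntegral (R := k') f
  set n := P.natDegree with hn
  choose D p q hp hq hq0 hpq using fun i => hgen (P.coeff i)
  let E := ∑ i ∈ Finset.range n, D i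
  let Q : k' := ∏ i ∈ Finset.range n, q i
  have hprod : ∀ s : Finset ℕ, ∏ i ∈ s, q i ∈ W ^ (∑ i ∈ s, D i) := by
    intro s
    induction s using Finset.induction_on with
    | empty => simp
    | insert a s ha ih =>
      rw [Finset.prod_insert ha, Finset.sum_insert ha, pow_add]
      exact Submodule.mul_mem_mul (hq a) ih
  have hQ : Q ∈ W ^ E := hprod _
  have hQ0 : Q ≠ 0 := Finset.prod_ne_zero_iff.2 fun i _ => hq0 i
  have hQc : ∀ i < n, P.coeff i * Q ∈ W ^ E := by
    intro i hi
    have h1 : P.coeff i * Q = p i * ∏ j ∈ (Finset.range n).erase i, q j := by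
      change P.coeff i * ∏ j ∈ Finset.range n, q j = _
      rw [← Finset.mul_prod_erase _ _ (Finset.mem_range.2 hi), ← mul_assoc, hpq]
    have h2 : E = D i + ∑ j ∈ (Finset.range n).erase i, D j :=
      (Finset.add_sum_erase _ _ (Finset.mem_range.2 hi)).symm
    rw [h1, h2, pow_add]
    exact Submodule.mul_mem_mul (hp i) (hprod _)
  refine ⟨E, Q, hQ, hQ0, ?_⟩
  set z := algebraMap k' S Q * f with hz
  -- the polynomial of `z`
  set P1 := P.scaleRoots Q with hP1
  have hP1m : P1.Monic := (Polynomial.monic_scaleRoots_iff Q).2 hP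
  have hP1z : Polynomial.eval₂ (algebraMap k' S) z P1 = 0 :=
    Polynomial.scaleRoots_eval₂_eq_zero (algebraMap k' S) hP0
  have hP1d : P1.natDegree = n := Polynomial.natDegree_scaleRoots _ _
  have hP1c : ∀ i ≤ n, P1.coeff i ∈ W ^ (E * (n - i)) := by
    intro i hi
    rw [hP1, Polynomial.coeff_scaleRoots, ← hn]
    rcases Nat.lt_or_ge i n with h1 | h1
    · obtain ⟨c, hc⟩ := Nat.exists_eq_add_of_lt h1
      have h2 : n - i = c + 1 := by omega
      rw [h2, pow_succ', ← mul_assoc, mul_add, mul_one, add_comm, pow_add]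
      refine Submodule.mul_mem_mul (hQc i h1) ?_
      rw [pow_mul]
      exact Submodule.pow_mem_pow _ hQ c
    · have h2 : i = n := le_antisymm hi h1
      rw [h2, Nat.sub_self, pow_zero, mul_one, mul_zero, pow_zero]
      have h3 : P.coeff n = 1 := hP
      rw [h3]
      exact Submodule.one_le.1 le_rfl
  -- the polynomial over the Rees algebra
  let φ : k' →+* S[X] := C.comp (algebraMap k' S)
  set P2 := (P1.map φ).scaleRoots (X ^ E) with hP2
  rcases subsingleton_or_nontrivial S with hsub | hnt
  · have h1 : z = 0 := Subsingleton.elim _ _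
    rw [h1]
    exact Submodule.zero_mem _
  have hP2m : P2.Monic := (Polynomial.monic_scaleRoots_iff _).2 (hP1m.map φ)
  have hd2 : (P1.map φ).natDegree = n := by
    rw [Polynomial.natDegree_map_eq_of_injective φ.injective, hP1d]
  have hP2z : Polynomial.eval₂ (RingHom.id S[X]) (X ^ E * C z) P2 = 0 := by
    refine Polynomial.scaleRoots_eval₂_eq_zero (RingHom.id S[X]) (s := X ^ E) ?_
    rw [Polynomial.eval₂_map, RingHom.id_comp]
    have h1 := congrArg (C : S →+* S[X]) hP1z
    rw [Polynomial.hom_eval₂, map_zero] at h1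
    exact h1
  have hlift : P2 ∈ Polynomial.lifts (algebraMap (RA (WS S W)) S[X]) := by
    rw [Polynomial.lifts_iff_coeff_lifts]
    intro i
    rw [hP2, Polynomial.coeff_scaleRoots, hd2, Polynomial.coeff_map]
    rcases Nat.lt_or_ge n i with h1 | h1
    · rw [Polynomial.coeff_eq_zero_of_natDegree_lt (by rw [hP1d]; exact h1), map_zero, zero_mul]
      exact ⟨0, map_zero _⟩
    · refine ⟨⟨_, RA_mem (mem_WS (S := S) (hP1c i h1))⟩, ?_⟩
      change C (algebraMap k' S (P1.coeff i)) * X ^ (E * (n - i)) = _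
      rw [pow_mul]
      rfl
  obtain ⟨P3, hP3, -, hP3m⟩ := Polynomial.lifts_and_natDegree_eq_and_monic hlift hP2m
  rw [mem_VR]
  refine ⟨P3, hP3m, ?_⟩
  have h1 : (C z * X ^ E : S[X]) = X ^ E * C z := mul_comm _ _
  rw [h1, ← hP2z, ← hP3, Polynomial.eval₂_map, RingHom.id_comp]

end

end Pool.Agent.TH143.TW
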